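import Mathlib
import Pool.Agent.Helper17.Berk.Ann

/-!
# Case S: covering by annuli (module B16), MP_160e9b_an

Proofs of `exists_small_disc`, `cover_disc`, `subdivide`, `tileFam_of_few`.
-/

open Polynomial Topology MeasureTheory Filter

set_option linter.dupNamespace false
set_option linter.unusedSectionVars false

namespace Pool.Agent.Helper43.Berk

open Pool.Agent.Helper17.Berk

universe u

variable {K : Type u} [NontriviallyNormedField K] [IsUltrametricDist K] [IsAlgClosed K]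

variable {R : RatMap K} {ρ : Measure (P1 K)}

omit [IsUltrametricDist K] in
/-- the value group is dense. -/
theorem exists_norm_btw {s t : ℝ} (hs : 0 ≤ s) (hst : s < t) : ∃ π : K, s < ‖π‖ ∧ ‖π‖ < t := by
  obtain ⟨w, hw⟩ := NormedField.exists_one_lt_norm K
  have ht : 0 < t := hs.trans_lt hst
  set s' := max s (t / 2) with hs'
  have hs'0 : 0 < s' := lt_max_of_lt_right (by linarith)
  have hs't : s' < t := max_lt hst (by linarith)
  have hlw : 0 < Real.log ‖w‖ := Real.log_pos hw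
  have h1 : Real.log s' / Real.log ‖w‖ < Real.log t / Real.log ‖w‖ :=
    div_lt_div_of_pos_right (Real.log_lt_log hs'0 hs't) hlw
  obtain ⟨q, hq1, hq2⟩ := exists_rat_btwn h1
  rw [div_lt_iff₀ hlw] at hq1
  rw [lt_div_iff₀ hlw] at hq2
  obtain ⟨z, hz⟩ := IsAlgClosed.exists_pow_nat_eq (w ^ q.num) q.den_pos
  have hzn : ‖z‖ ^ q.den = ‖w‖ ^ q.num := by rw [← norm_pow, hz, norm_zpow]
  have hw0 : 0 < ‖w‖ := by linarith
  have hzpos : 0 < ‖z‖ := by
    by_contra hcon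
    have h0 : ‖z‖ = 0 := le_antisymm (not_lt.1 hcon) (norm_nonneg _)
    rw [h0, zero_pow q.den_pos.ne'] at hzn
    exact (zpow_pos hw0 q.num).ne hzn
  have hlz : (q.den : ℝ) * Real.log ‖z‖ = q.num * Real.log ‖w‖ := by
    rw [← Real.log_pow, hzn, Real.log_zpow]
  have hden : (0 : ℝ) < q.den := by exact_mod_cast q.den_pos
  have hlz' : Real.log ‖z‖ = q * Real.log ‖w‖ := by
    have hqq : (q : ℝ) = q.num / q.den := by
      rw [Rat.cast_def]
    rw [hqq]
    field_simp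
    linarith
  refine ⟨z, ?_, ?_⟩
  · have : Real.log s' < Real.log ‖z‖ := by rw [hlz']; exact hq1
    exact (le_max_left _ _).trans_lt ((Real.log_lt_log_iff hs'0 hzpos).1 this)
  · have : Real.log ‖z‖ < Real.log t := by rw [hlz']; exact hq2
    exact (Real.log_lt_log_iff hzpos ht).1 this

omit [IsAlgClosed K] in
theorem oD_mono {a : K} {r s : ℝ} (h : r ≤ s) : (oD a r : Set (P1 K)) ⊆ oD a s := by
  rintro _ ⟨x, rfl, hx⟩
  exact ⟨x, rfl, hx.trans_le h⟩

omit [IsAlgClosed K] in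
theorem cD_subset_oD {a : K} {r s : ℝ} (h : r < s) : (cD a r : Set (P1 K)) ⊆ oD a s := by
  rintro _ ⟨x, rfl, hx⟩
  exact ⟨x, rfl, hx.trans_lt h⟩

omit [IsAlgClosed K] in
theorem cD_mono {a : K} {r s : ℝ} (h : r ≤ s) : (cD a r : Set (P1 K)) ⊆ cD a s := by
  rintro _ ⟨x, rfl, hx⟩
  exact ⟨x, rfl, hx.trans h⟩

theorem measurableSet_oD (a : K) (r : ℝ) : MeasurableSet (oD a r : Set (P1 K)) :=
  (isOpen_oD a r).measurableSet

theorem measurableSet_cD (a : K) (r : ℝ) : MeasurableSet (cD a r : Set (P1 K)) :=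
  (isClosed_cD a r).measurableSet

omit [IsAlgClosed K] in
/-- the classical centre. -/
theorem pt_mem_oD {a : K} {r : ℝ} (hr : 0 < r) : ((pt a : Berk K) : P1 K) ∈ oD a r := by
  rw [coe_mem_oD, pt_lin, sub_self, norm_zero]; exact hr

omit [IsAlgClosed K] in
theorem norm_lt_of_subset {a b : K} {r s : ℝ} (hr : 0 < r)
    (h : (oD a r : Set (P1 K)) ⊆ oD b s) : ‖a - b‖ < s := by
  have := h (pt_mem_oD hr)
  rwa [coe_mem_oD, pt_lin] at this

/-- an open disc is the union of the smaller type II discs. -/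
theorem exists_typeTwo_pos {a : K} {r : ℝ} (hr : 0 < r) (hpos : 0 < ρ (oD a r)) :
    ∃ π : K, π ≠ 0 ∧ ‖π‖ < r ∧ 0 < ρ (oD a ‖π‖) := by
  -- choose a sequence
  have key : ∀ n : ℕ, ∃ π : K, r * (1 - 1 / (n + 2 : ℝ)) < ‖π‖ ∧ ‖π‖ < r := by
    intro n
    have h0 : (0 : ℝ) < n + 2 := by positivity
    have h1 : 1 / (n + 2 : ℝ) ≤ 1 / 2 := by
      apply one_div_le_one_div_of_le <;> [norm_num; linarith [(Nat.cast_nonneg n : (0:ℝ) ≤ n)]]
    have h2 : 0 < 1 / (n + 2 : ℝ) := by positivity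
    apply exists_norm_btw
    · apply mul_nonneg hr.le; linarith
    · nlinarith
  choose p hp1 hp2 using key
  have hU : (oD a r : Set (P1 K)) ⊆ ⋃ n, oD a ‖p n‖ := by
    rintro _ ⟨x, rfl, hx⟩
    rw [Set.mem_iUnion]
    have hlim : Tendsto (fun n : ℕ => r * (1 - 1 / ((n : ℝ) + 2))) atTop (𝓝 (r * (1 - 0))) := by
      refine tendsto_const_nhds.mul (tendsto_const_nhds.sub ?_)
      have : Tendsto (fun n : ℕ => ((n : ℝ) + 2)) atTop atTop :=
        tendsto_atTop_add_const_right _ _ tendsto_natCast_atTop_atTop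
      have h3 := this.inv_tendsto_atTop
      refine h3.congr fun n => ?_
      simp
    rw [sub_zero, mul_one] at hlim
    obtain ⟨n, hn⟩ := (hlim.eventually (lt_mem_nhds hx)).exists
    exact ⟨n, coe_mem_oD.2 (hn.trans (hp1 n))⟩
  by_contra hcon
  push Not at hcon
  have hnull : ∀ n, ρ (oD a ‖p n‖) = 0 := by
    intro n
    have h0 : p n ≠ 0 := by
      intro h
      have h1 := hp1 n
      rw [h, norm_zero] at h1
      have h2 : 1 / (n + 2 : ℝ) ≤ 1 / 2 := by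
        apply one_div_le_one_div_of_le <;> [norm_num; linarith [(Nat.cast_nonneg n : (0:ℝ) ≤ n)]]
      nlinarith
    exact nonpos_iff_eq_zero.1 (hcon (p n) h0 (hp2 n))
  have : ρ (oD a r) ≤ 0 := (measure_mono hU).trans (by
    rw [measure_iUnion_null hnull])
  exact absurd hpos (not_lt.2 this)

/-- two discs with a common point are nested. -/
theorem oD_subset_of_mem {a b : K} {r s : ℝ} (hrs : r ≤ s) {x : P1 K} (h1 : x ∈ oD a r)
    (h2 : x ∈ oD b s) : (oD a r : Set (P1 K)) ⊆ oD b s := by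
  rcases oD_subset_or_disjoint (a := a) (b := b) hrs with h | h
  · exact h
  · exact absurd h2 (Set.disjoint_left.1 h h1)

/-- small positive discs (uses that there are no atoms). -/
theorem exists_small_disc (h : Setup R ρ) (hG : ¬ R.CaseG) {a : K} {r : ℝ} (hr : 0 < r)
    (hpos : 0 < ρ (oD a r)) {ε : ℝ} (hε : 0 < ε) : ∃ (b π : K), π ≠ 0 ∧ ‖π‖ < r ∧
      (oD b ‖π‖ : Set (P1 K)) ⊆ oD a r ∧ 0 < ρ (oD b ‖π‖) ∧ ρ.real (oD b ‖π‖) ≤ ε := by
  by_contra hcon
  push Not at hcon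
  have := h.prob
  let A : Set ℝ := {x | ∃ (b : K) (t : ℝ), 0 < t ∧ t < r ∧ (oD b t : Set (P1 K)) ⊆ oD a r ∧
    0 < ρ (oD b t) ∧ x = ρ.real (oD b t)}
  have hAε : ∀ x ∈ A, ε ≤ x := by
    rintro _ ⟨b, t, ht, htr, hsub, hp, rfl⟩
    obtain ⟨π, hπ, hπt, hπp⟩ := exists_typeTwo_pos ht hp
    have h1 := hcon b π hπ (hπt.trans htr) ((oD_mono hπt.le).trans hsub) hπp
    exact h1.le.trans (measureReal_mono (oD_mono hπt.le))
  have hAne : A.Nonempty := by
    obtain ⟨π, hπ, hπt, hπp⟩ := exists_typeTwo_pos hr hpos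
    exact ⟨_, a, ‖π‖, norm_pos_iff.2 hπ, hπt, oD_mono hπt.le, hπp, rfl⟩
  have hAbdd : BddBelow A := ⟨ε, fun x hx => hAε x hx⟩
  set m := sInf A with hm
  have hmε : ε ≤ m := le_csInf hAne hAε
  have hm0 : 0 < m := hε.trans_le hmε
  have hmA : ∀ x ∈ A, m ≤ x := fun x hx => csInf_le hAbdd hx
  obtain ⟨_, ⟨b₀, t₀, ht₀, ht₀r, hsub₀, hp₀, rfl⟩, hlt₀⟩ :=
    exists_lt_of_csInf_lt hAne (show sInf A < 2 * m by rw [← hm]; linarith)
  -- subdiscs of `oD b₀ t₀`
  have hsubA : ∀ (b : K) (t : ℝ), 0 < t → t ≤ t₀ → (oD b t : Set (P1 K)) ⊆ oD b₀ t₀ →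
      0 < ρ (oD b t) → m ≤ ρ.real (oD b t) := fun b t h1 h2 h3 h4 =>
    hmA _ ⟨b, t, h1, h2.trans_lt ht₀r, h3.trans hsub₀, h4, rfl⟩
  have hchain : ∀ (b : K) (t : ℝ) (b' : K) (t' : ℝ), 0 < t → t ≤ t₀ → 0 < t' → t' ≤ t₀ →
      (oD b t : Set (P1 K)) ⊆ oD b₀ t₀ → (oD b' t' : Set (P1 K)) ⊆ oD b₀ t₀ →
      0 < ρ (oD b t) → 0 < ρ (oD b' t') → ¬ Disjoint (oD b t : Set (P1 K)) (oD b' t') := by
    intro b t b' t' h1 h2 h3 h4 h5 h6 h7 h8 hd
    have e1 := hsubA b t h1 h2 h5 h7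
    have e2 := hsubA b' t' h3 h4 h6 h8
    have e3 : ρ.real (oD b t ∪ oD b' t') = ρ.real (oD b t) + ρ.real (oD b' t') :=
      measureReal_union hd (measurableSet_oD _ _)
    have e4 : ρ.real (oD b t ∪ oD b' t') ≤ ρ.real (oD b₀ t₀) :=
      measureReal_mono (Set.union_subset h5 h6)
    linarith
  let T : Set ℝ := {t | 0 < t ∧ t ≤ t₀ ∧ ∃ b : K, (oD b t : Set (P1 K)) ⊆ oD b₀ t₀ ∧
    0 < ρ (oD b t)}
  have hTne : T.Nonempty := ⟨t₀, ht₀, le_rfl, b₀, subset_rfl, hp₀⟩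
  have hTbdd : BddBelow T := ⟨0, fun t ht => ht.1.le⟩
  obtain ⟨u, hanti, hlim, huT⟩ := exists_seq_tendsto_sInf hTne hTbdd
  choose hu0 hut₀ b hbsub hbpos using huT
  have hDanti : Antitone (fun n => (oD (b n) (u n) : Set (P1 K))) := by
    refine antitone_nat_of_succ_le fun n => ?_
    rcases oD_subset_or_disjoint (a := b (n + 1)) (b := b n) (hanti (Nat.le_succ n)) with h1 | h1
    · exact h1
    · exact absurd h1 (hchain _ _ _ _ (hu0 _) (hut₀ _) (hu0 _) (hut₀ _) (hbsub _) (hbsub _)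
        (hbpos _) (hbpos _))
  set I : Set (P1 K) := ⋂ n, oD (b n) (u n) with hI
  have hIpos : ρ I ≠ 0 := by
    have h1 := tendsto_measure_iInter_atTop (μ := ρ)
      (fun n => (measurableSet_oD (b n) (u n)).nullMeasurableSet) hDanti
      ⟨0, measure_ne_top _ _⟩
    have h2 : ∀ n, ENNReal.ofReal m ≤ ρ (oD (b n) (u n)) := fun n => by
      have h3 := hsubA _ _ (hu0 n) (hut₀ n) (hbsub n) (hbpos n)
      rw [ENNReal.ofReal_le_iff_le_toReal (measure_ne_top _ _)]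
      exact h3
    have h3 : ENNReal.ofReal m ≤ ρ I := ge_of_tendsto' h1 h2
    intro h4
    rw [h4, nonpos_iff_eq_zero, ENNReal.ofReal_eq_zero] at h3
    linarith
  set N : Set (P1 K) := ⋃₀ {V | IsOpen V ∧ ρ V = 0} with hN
  have hN0 : ρ N = 0 := h.null_sUnion _ (fun V hV => hV)
  have hsupp : ∀ x ∉ N, ∀ V : Set (P1 K), IsOpen V → x ∈ V → 0 < ρ V := by
    intro x hx V hV hxV
    refine pos_iff_ne_zero.2 fun h0 => hx ?_
    exact ⟨V, ⟨hV, h0⟩, hxV⟩
  have hIsub : I ⊆ oD b₀ t₀ := (Set.iInter_subset _ 0).trans (hbsub 0)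
  -- comparison of two support points
  have hcmp : ∀ x y : Berk K, (x : P1 K) ∈ I → (x : P1 K) ∉ N → (y : P1 K) ∈ I →
      ∀ c : K, ¬ x (X - C c) < y (X - C c) := by
    intro x y hxI hxN hyI c hlt
    have hkey : ∀ t : ℝ, x (X - C c) < t → t < y (X - C c) →
        0 < ρ (oD c t) ∧ t ≤ t₀ ∧ (oD c t : Set (P1 K)) ⊆ oD b₀ t₀ := by
      intro t h1 h2
      have hxt : (x : P1 K) ∈ oD c t := coe_mem_oD.2 h1
      have hp := hsupp _ hxN _ (isOpen_oD c t) hxt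
      rcases le_total t t₀ with h3 | h3
      · exact ⟨hp, h3, oD_subset_of_mem h3 hxt (hIsub hxI)⟩
      · have h4 := oD_subset_of_mem h3 (hIsub hxI) hxt
        have h5 := coe_mem_oD.1 (h4 (hIsub hyI))
        linarith
    obtain ⟨t, ht1, ht2⟩ := exists_between hlt
    obtain ⟨k1, k2, k3⟩ := hkey t ht1 ht2
    have ht0 : 0 < t := (x.nonneg _).trans_lt ht1
    have hτ : sInf T ≤ t := csInf_le hTbdd ⟨ht0, k2, c, k3, k1⟩
    obtain ⟨n, hn⟩ := (hlim.eventually (gt_mem_nhds (hτ.trans_lt ht2))).exists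
    have hx1 : (x : P1 K) ∈ oD c (max (u n) t) := coe_mem_oD.2 (ht1.trans_le (le_max_right _ _))
    have hxn : (x : P1 K) ∈ oD (b n) (u n) := Set.mem_iInter.1 hxI n
    have hyn : (y : P1 K) ∈ oD (b n) (u n) := Set.mem_iInter.1 hyI n
    have h6 := oD_subset_of_mem (le_max_left (u n) t) hxn hx1
    have h7 := coe_mem_oD.1 (h6 hyn)
    exact absurd h7 (not_lt.2 (max_le hn.le ht2.le))
  have hInot : ¬ I ⊆ N := fun hsub => hIpos (measure_mono_null hsub hN0)
  obtain ⟨p, hpI, hpN⟩ := Set.not_subset.1 hInot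
  have hsub2 : I ⊆ N ∪ {p} := by
    intro q hqI
    by_cases hqN : q ∈ N
    · exact Or.inl hqN
    · right
      obtain ⟨x, rfl, -⟩ := hIsub hpI
      obtain ⟨y, rfl, -⟩ := hIsub hqI
      have : x = y := by
        refine Berk.ext_lin fun c => le_antisymm ?_ ?_
        · exact not_lt.1 (hcmp y x hqI hqN hpI c)
        · exact not_lt.1 (hcmp x y hpI hpN hqI c)
      rw [this]; rfl
  refine hIpos (measure_mono_null hsub2 ?_)
  exact measure_union_null hN0 (h.no_atom hG p)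

/-! ### covering -/

/-- the annulus. -/
abbrev ann (a : K) (r₁ r₂ : ℝ) : Set (P1 K) := oD a r₂ \ cD a r₁

/-- `D` is covered up to `ε` by finitely many disjoint annuli with null sides. -/
def Cov (ρ : Measure (P1 K)) (D : Set (P1 K)) (ε : ℝ) : Prop :=
  ∃ (ι : Type u) (_ : Fintype ι) (a : ι → K) (r₁ r₂ : ι → ℝ),
    (∀ i, NullSides ρ (a i) (r₁ i) (r₂ i) ∧ ann (a i) (r₁ i) (r₂ i) ⊆ D) ∧
    (∀ i j, i ≠ j → Disjoint (ann (a i) (r₁ i) (r₂ i)) (ann (a j) (r₁ j) (r₂ j))) ∧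
    ρ.real D - ε ≤ ∑ i, ρ.real (ann (a i) (r₁ i) (r₂ i))

theorem Cov.combine {D : Set (P1 K)} {E : Type u} [Fintype E] {B : E → Set (P1 K)} {a : K}
    {r₁ r₂ : ℝ} (hU : NullSides ρ a r₁ r₂) (hUsub : ann a r₁ r₂ ⊆ D) (hBsub : ∀ e, B e ⊆ D)
    (hdis : ∀ e, Disjoint (ann a r₁ r₂) (B e)) (hpair : ∀ e e', e ≠ e' → Disjoint (B e) (B e'))
    {δ η ε : ℝ} (hcov : ∀ e, Cov ρ (B e) δ) (hε : Fintype.card E * δ + η ≤ ε)
    (hmass : ρ.real D ≤ ρ.real (ann a r₁ r₂) + ∑ e, ρ.real (B e) + η) : Cov ρ D ε := by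
  choose ι inst A q₁ q₂ h1 h2 h3 using hcov
  let A' : Option (Σ e, ι e) → K := fun o => o.elim a fun z => A z.1 z.2
  let q₁' : Option (Σ e, ι e) → ℝ := fun o => o.elim r₁ fun z => q₁ z.1 z.2
  let q₂' : Option (Σ e, ι e) → ℝ := fun o => o.elim r₂ fun z => q₂ z.1 z.2
  refine ⟨Option (Σ e, ι e), inferInstance, A', q₁', q₂', ?_, ?_, ?_⟩
  · rintro (_ | ⟨e, i⟩)
    · exact ⟨hU, hUsub⟩
    · exact ⟨(h1 e i).1, (h1 e i).2.trans (hBsub e)⟩
  · rintro (_ | ⟨e, i⟩) (_ | ⟨e', i'⟩) hne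
    · exact absurd rfl hne
    · exact (hdis e').mono_right (h1 e' i').2
    · exact ((hdis e).mono_right (h1 e i).2).symm
    · by_cases hee : e = e'
      · subst hee
        have : i ≠ i' := by
          rintro rfl; exact hne rfl
        exact h2 e i i' this
      · exact (hpair e e' hee).mono (h1 e i).2 (h1 e' i').2
  · rw [Fintype.sum_option, Fintype.sum_sigma]
    change _ ≤ ρ.real (ann a r₁ r₂) + ∑ e, ∑ i, ρ.real (ann (A e i) (q₁ e i) (q₂ e i))
    have h4 : ∑ e, (ρ.real (B e) - δ) ≤ ∑ e, ∑ i, ρ.real (ann (A e i) (q₁ e i) (q₂ e i)) :=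
      Finset.sum_le_sum fun e _ => h3 e
    rw [Finset.sum_sub_distrib, Finset.sum_const, Finset.card_univ, nsmul_eq_mul] at h4
    linarith

/-- at most `k` disjoint positive type II subdiscs. -/
def AtMost (ρ : Measure (P1 K)) (D : Set (P1 K)) (k : ℕ) : Prop :=
  ∀ I : Finset (K × K),
    (∀ p ∈ I, p.2 ≠ 0 ∧ 0 < ρ (oD p.1 ‖p.2‖) ∧ (oD p.1 ‖p.2‖ : Set (P1 K)) ⊆ D) →
    (∀ p ∈ I, ∀ q ∈ I, p ≠ q → Disjoint (oD p.1 ‖p.2‖ : Set (P1 K)) (oD q.1 ‖q.2‖)) →
    I.card ≤ k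

theorem oD_subset_oD_of_norm {c b : K} {r s : ℝ} (hr : 0 < r) (hrs : r ≤ s) (h : ‖c - b‖ < s) :
    (oD c r : Set (P1 K)) ⊆ oD b s := by
  refine oD_subset_of_mem hrs (pt_mem_oD hr) ?_
  rw [coe_mem_oD, pt_lin]; exact h

theorem norm_le_of_disjoint {a b : K} {r s : ℝ} (hs : 0 < s)
    (h : Disjoint (oD a r : Set (P1 K)) (oD b s)) : r ≤ ‖a - b‖ := by
  by_contra hcon
  rw [not_le] at hcon
  have h1 : ((pt b : Berk K) : P1 K) ∈ oD a r := by
    rw [coe_mem_oD, pt_lin, norm_sub_rev]; exact hcon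
  exact Set.disjoint_left.1 h h1 (pt_mem_oD hs)

theorem cov_zero {a₀ π₀ : K} (h₀ : π₀ ≠ 0) {ε : ℝ} (hε : 0 < ε)
    (hA : AtMost ρ (oD a₀ ‖π₀‖) 0) : Cov ρ (oD a₀ ‖π₀‖) ε := by
  have hz : ρ (oD a₀ ‖π₀‖) = 0 := by
    by_contra hcon
    have := hA {(a₀, π₀)} (by simpa using ⟨h₀, pos_iff_ne_zero.2 hcon⟩) (by simp)
    simp at this
  refine ⟨PEmpty, inferInstance, fun i => i.elim, fun i => i.elim, fun i => i.elim,
    fun i => i.elim, fun i => i.elim, ?_⟩
  have : ρ.real (oD a₀ ‖π₀‖) = 0 := by rw [Measure.real, hz]; rfl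
  rw [this]
  simp
  exact hε.le

theorem cov_one (h : Setup R ρ) (hG : ¬ R.CaseG) {a₀ π₀ : K} (h₀ : π₀ ≠ 0) {ε : ℝ} (hε : 0 < ε)
    (hpos : 0 < ρ (oD a₀ ‖π₀‖)) (hA : AtMost ρ (oD a₀ ‖π₀‖) 1) : Cov ρ (oD a₀ ‖π₀‖) ε := by
  have := h.prob
  have h00 : 0 < ‖π₀‖ := norm_pos_iff.2 h₀
  obtain ⟨b, π, hπ, hπ0, hsub, hbp, hbε⟩ := exists_small_disc h hG h00 hpos hε
  obtain ⟨π', hπ', hππ', hb'p⟩ := exists_typeTwo_pos (norm_pos_iff.2 hπ) hbp
  have hD : (oD a₀ ‖π₀‖ : Set (P1 K)) = oD b ‖π₀‖ :=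
    oD_eq_oD (by rw [norm_sub_rev]; exact norm_lt_of_subset (norm_pos_iff.2 hπ) hsub)
  have hN : NullSides ρ b ‖π'‖ ‖π₀‖ := by
    refine ⟨norm_pos_iff.2 hπ', hππ'.trans hπ0, fun c hc1 hc2 => ?_⟩
    by_contra hcon
    have hcb : c - b ≠ 0 := by
      intro h1
      rw [h1, norm_zero] at hc1
      exact absurd hc1 (not_lt.2 (norm_nonneg _))
    have hdisj : Disjoint (oD b ‖π'‖ : Set (P1 K)) (oD c ‖c - b‖) := by
      refine oD_disjoint ?_ ?_
      · rw [norm_sub_rev]; exact hc1.le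
      · rw [norm_sub_rev]
    have hne : ((b, π') : K × K) ≠ (c, c - b) := by
      intro h1
      rw [Prod.mk.injEq] at h1
      exact hcb (by rw [h1.1, sub_self])
    classical
    have h2 := hA {(b, π'), (c, c - b)} ?_ ?_
    · rw [Finset.card_pair hne] at h2
      omega
    · intro p hp
      rw [Finset.mem_insert, Finset.mem_singleton] at hp
      rcases hp with rfl | rfl
      · exact ⟨hπ', hb'p, (oD_mono hππ'.le).trans hsub⟩
      · refine ⟨hcb, pos_iff_ne_zero.2 hcon, ?_⟩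
        rw [hD]
        exact oD_subset_oD_of_norm (norm_pos_iff.2 hcb) hc2.le hc2
    · intro p hp q hq hpq
      rw [Finset.mem_insert, Finset.mem_singleton] at hp hq
      rcases hp with rfl | rfl <;> rcases hq with rfl | rfl
      · exact absurd rfl hpq
      · exact hdisj
      · exact hdisj.symm
      · exact absurd rfl hpq
  refine Cov.combine (E := PEmpty) (B := fun e => e.elim) hN ?_ (fun e => e.elim)
    (fun e => e.elim) (fun e => e.elim) (δ := 0) (η := ε) (fun e => e.elim) (by simp) ?_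
  · rw [hD]; exact Set.sdiff_subset
  · have h1 : (oD a₀ ‖π₀‖ : Set (P1 K)) ⊆ ann b ‖π'‖ ‖π₀‖ ∪ oD b ‖π‖ := by
      rw [hD]
      intro x hx
      by_cases hx' : x ∈ (cD b ‖π'‖ : Set (P1 K))
      · exact Or.inr (cD_subset_oD hππ' hx')
      · exact Or.inl ⟨hx, hx'⟩
    have h2 := (measureReal_mono (μ := ρ) h1).trans (measureReal_union_le _ _)
    simp
    linarith

theorem norm_sub_max (x y : K) : ‖x - y‖ ≤ max ‖x‖ ‖y‖ := by
  rw [sub_eq_add_neg]
  refine (IsUltrametricDist.norm_add_le_max _ _).trans ?_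
  rw [norm_neg]

theorem norm_sub_lt' {x y z : K} {s : ℝ} (h1 : ‖x - y‖ < s) (h2 : ‖z - y‖ < s) : ‖x - z‖ < s := by
  have : x - z = (x - y) - (z - y) := by ring
  rw [this]
  exact (norm_sub_max _ _).trans_lt (max_lt h1 h2)

theorem norm_sub_eq_of_lt {x y z : K} (h : ‖z - y‖ < ‖x - y‖) : ‖x - z‖ = ‖x - y‖ := by
  refine le_antisymm ?_ ?_
  · have : x - z = (x - y) - (z - y) := by ring
    rw [this]
    exact (norm_sub_max _ _).trans (max_le le_rfl h.le)
  · by_contra hcon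
    rw [not_le] at hcon
    have : x - y = (x - z) + (z - y) := by ring
    have h2 : ‖x - y‖ ≤ max ‖x - z‖ ‖z - y‖ := by
      conv_lhs => rw [this]
      exact IsUltrametricDist.norm_add_le_max _ _
    exact absurd h2 (not_le.2 (max_lt hcon h))

/-- representatives of the positive subdiscs of radius `q` of a closed disc. -/
theorem exists_reps (c : K) {q : ℝ} (k : ℕ)
    (hk : ∀ S : Finset K, (∀ e ∈ S, ‖e - c‖ ≤ q ∧ 0 < ρ (oD e q)) →
      (∀ e ∈ S, ∀ e' ∈ S, e ≠ e' → Disjoint (oD e q : Set (P1 K)) (oD e' q)) → S.card ≤ k) :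
    ∃ S : Finset K, (∀ e ∈ S, ‖e - c‖ ≤ q ∧ 0 < ρ (oD e q)) ∧
      (∀ e ∈ S, ∀ e' ∈ S, e ≠ e' → Disjoint (oD e q : Set (P1 K)) (oD e' q)) ∧
      ∀ e : K, ‖e - c‖ ≤ q → 0 < ρ (oD e q) →
        ∃ e' ∈ S, (oD e q : Set (P1 K)) ⊆ oD e' q := by
  classical
  let P : ℕ → Prop := fun n => ∃ S : Finset K, (∀ e ∈ S, ‖e - c‖ ≤ q ∧ 0 < ρ (oD e q)) ∧
      (∀ e ∈ S, ∀ e' ∈ S, e ≠ e' → Disjoint (oD e q : Set (P1 K)) (oD e' q)) ∧ S.card = n
  have hP0 : P 0 := ⟨∅, by simp, by simp, rfl⟩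
  have hP : ∃ n, P n ∧ ¬ P (n + 1) := by
    by_contra hcon
    push Not at hcon
    have hall : ∀ n, P n := fun n => by
      induction n with
      | zero => exact hP0
      | succ n ih => exact hcon n ih
    obtain ⟨S, h1, h2, h3⟩ := hall (k + 1)
    have := hk S h1 h2
    omega
  obtain ⟨n, ⟨S, h1, h2, h3⟩, hn⟩ := hP
  refine ⟨S, h1, h2, fun e he hep => ?_⟩
  by_contra hcon
  push Not at hcon
  have hdis : ∀ e' ∈ S, Disjoint (oD e q : Set (P1 K)) (oD e' q) := fun e' he' =>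
    (oD_subset_or_disjoint (a := e) (b := e') le_rfl).resolve_left (hcon e' he')
  have heS : e ∉ S := fun heS => hcon e heS subset_rfl
  refine hn ⟨insert e S, ?_, ?_, by rw [Finset.card_insert_of_notMem heS, h3]⟩
  · intro x hx
    rcases Finset.mem_insert.1 hx with rfl | hx
    · exact ⟨he, hep⟩
    · exact h1 x hx
  · intro x hx y hy hxy
    rcases Finset.mem_insert.1 hx with hx' | hx' <;> rcases Finset.mem_insert.1 hy with hy' | hy'
    · exact absurd (hx'.trans hy'.symm) hxy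
    · rw [hx']; exact hdis y hy'
    · rw [hy']; exact (hdis x hx').symm
    · exact h2 x hx' y hy' hxy

theorem cov_aux (h : Setup R ρ) (hG : ¬ R.CaseG) (k : ℕ) : ∀ (a₀ π₀ : K), π₀ ≠ 0 →
    ∀ {ε : ℝ}, 0 < ε → AtMost ρ (oD a₀ ‖π₀‖) k → Cov ρ (oD a₀ ‖π₀‖) ε := by
  classical
  have := h.prob
  induction k with
  | zero => exact fun a₀ π₀ h₀ ε hε hA => cov_zero h₀ hε hA
  | succ k ih =>
    intro a₀ π₀ h₀ ε hε hA
    by_cases hk : AtMost ρ (oD a₀ ‖π₀‖) k
    · exact ih a₀ π₀ h₀ hε hk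
    have h00 : 0 < ‖π₀‖ := norm_pos_iff.2 h₀
    unfold AtMost at hk
    push Not at hk
    obtain ⟨I, hI1, hI2, hI3⟩ := hk
    have hIc : I.card = k + 1 := le_antisymm (hA I hI1 hI2) hI3
    by_cases hk0 : k = 0
    · subst hk0
      obtain ⟨p, hp⟩ := Finset.card_pos.1 (by omega : 0 < I.card)
      exact cov_one h hG h₀ hε ((hI1 p hp).2.1.trans_le (measure_mono (hI1 p hp).2.2)) hA
    have hIne : I.Nonempty := Finset.card_pos.1 (by omega)
    -- distances between centres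
    have hdist : ∀ p ∈ I, ∀ q ∈ I, p ≠ q → ‖p.2‖ ≤ ‖p.1 - q.1‖ := fun p hp q hq hpq =>
      norm_le_of_disjoint (norm_pos_iff.2 (hI1 q hq).1) (hI2 p hp q hq hpq)
    obtain ⟨⟨P, Q⟩, hPQ, hmax⟩ := Finset.exists_max_image (I ×ˢ I)
      (fun z : (K × K) × (K × K) => ‖z.1.1 - z.2.1‖) (hIne.product hIne)
    rw [Finset.mem_product] at hPQ
    obtain ⟨hP, hQ⟩ := hPQ
    simp only at hP hQ hmax
    have hmax' : ∀ p ∈ I, ∀ q ∈ I, ‖p.1 - q.1‖ ≤ ‖P.1 - Q.1‖ := fun p hp q hq =>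
      hmax (p, q) (Finset.mem_product.2 ⟨hp, hq⟩)
    set ϖ := P.1 - Q.1 with hϖ
    have hrad : ∀ p ∈ I, ‖p.2‖ ≤ ‖ϖ‖ := by
      intro p hp
      have hc : 1 < I.card := by omega
      obtain ⟨q, hq, hqp⟩ := Finset.exists_mem_ne hc p
      exact (hdist p hp q hq hqp.symm).trans (hmax' p hp q hq)
    have hq0 : 0 < ‖ϖ‖ := (norm_pos_iff.2 (hI1 P hP).1).trans_le (hrad P hP)
    have hϖ0 : ϖ ≠ 0 := norm_pos_iff.1 hq0
    have hPD : ‖P.1 - a₀‖ < ‖π₀‖ := norm_lt_of_subset (norm_pos_iff.2 (hI1 P hP).1) (hI1 P hP).2.2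
    have hQD : ‖Q.1 - a₀‖ < ‖π₀‖ := norm_lt_of_subset (norm_pos_iff.2 (hI1 Q hQ).1) (hI1 Q hQ).2.2
    have hqπ : ‖ϖ‖ < ‖π₀‖ := norm_sub_lt' hPD hQD
    have hD : (oD a₀ ‖π₀‖ : Set (P1 K)) = oD P.1 ‖π₀‖ :=
      oD_eq_oD (by rw [norm_sub_rev]; exact hPD)
    -- the outer annulus
    have hN : NullSides ρ P.1 ‖ϖ‖ ‖π₀‖ := by
      refine ⟨hq0, hqπ, fun c hc1 hc2 => ?_⟩
      by_contra hcon
      have hcb : c - P.1 ≠ 0 := by
        intro h1
        rw [h1, norm_zero] at hc1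
        exact absurd hc1 (not_lt.2 (norm_nonneg _))
      have hnot : (c, c - P.1) ∉ I := fun hmem =>
        absurd (hrad _ hmem) (not_le.2 hc1)
      have hdisj : ∀ p ∈ I, Disjoint (oD c ‖c - P.1‖ : Set (P1 K)) (oD p.1 ‖p.2‖) := by
        intro p hp
        have h1 : ‖c - p.1‖ = ‖c - P.1‖ :=
          norm_sub_eq_of_lt ((hmax' p hp P hP).trans_lt hc1)
        exact oD_disjoint h1.ge (by rw [h1]; exact (hrad p hp).trans hc1.le)
      have h2 := hA (insert (c, c - P.1) I) ?_ ?_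
      · rw [Finset.card_insert_of_notMem hnot] at h2
        omega
      · intro p hp
        rcases Finset.mem_insert.1 hp with rfl | hp
        · refine ⟨hcb, pos_iff_ne_zero.2 hcon, ?_⟩
          rw [hD]
          exact oD_subset_oD_of_norm (norm_pos_iff.2 hcb) hc2.le hc2
        · exact hI1 p hp
      · intro p hp q hq hpq
        rcases Finset.mem_insert.1 hp with rfl | hp <;> rcases Finset.mem_insert.1 hq with rfl | hq
        · exact absurd rfl hpq
        · exact hdisj q hq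
        · exact (hdisj p hp).symm
        · exact hI2 p hp q hq hpq
    have heD : ∀ e : K, ‖e - P.1‖ ≤ ‖ϖ‖ → (oD e ‖ϖ‖ : Set (P1 K)) ⊆ oD a₀ ‖π₀‖ := fun e he => by
      rw [hD]
      exact oD_subset_oD_of_norm hq0 hqπ.le (he.trans_lt hqπ)
    -- the positive subdiscs of the closed disc
    obtain ⟨S, hS1, hS2, hS3⟩ := exists_reps (ρ := ρ) (q := ‖ϖ‖) P.1 (k + 1) (fun S h1 h2 => by
      have h3 := hA (S.image fun e => (e, ϖ)) ?_ ?_
      · rwa [Finset.card_image_of_injective _ (fun e e' hee => (Prod.mk.inj hee).1)] at h3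
      · intro p hp
        obtain ⟨e, he, rfl⟩ := Finset.mem_image.1 hp
        exact ⟨hϖ0, (h1 e he).2, heD e (h1 e he).1⟩
      · intro p hp q hq hpq
        obtain ⟨e, he, rfl⟩ := Finset.mem_image.1 hp
        obtain ⟨e', he', rfl⟩ := Finset.mem_image.1 hq
        exact h2 e he e' he' (fun hee => hpq (by rw [hee])))
    set δ := ε / (Fintype.card {e // e ∈ S} + 1) with hδ
    have hδ0 : 0 < δ := by positivity
    refine Cov.combine (E := {e // e ∈ S}) (B := fun e => oD e.1 ‖ϖ‖) hN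
      (by rw [hD]; exact Set.sdiff_subset) (fun e => heD e.1 (hS1 e.1 e.2).1) ?_ ?_
      (δ := δ) (η := 0) (fun e => ih e.1 ϖ hϖ0 hδ0 ?_) ?_ ?_
    · intro e
      refine Set.disjoint_left.2 fun x hx hx' => hx.2 ?_
      obtain ⟨y, rfl, hy⟩ := hx'
      rw [coe_mem_cD]
      refine (y.lin_le P.1 e.1).trans (max_le hy.le ?_)
      rw [norm_sub_rev]; exact (hS1 e.1 e.2).1
    · intro e e' hee
      exact hS2 e.1 e.2 e'.1 e'.2 (fun h1 => hee (Subtype.ext h1))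
    · -- fewer discs
      intro J hJ1 hJ2
      by_contra hcon
      rw [not_le] at hcon
      have hside : ∃ Z ∈ I, Disjoint (oD Z.1 ‖Z.2‖ : Set (P1 K)) (oD e.1 ‖ϖ‖) := by
        rcases oD_subset_or_disjoint (a := P.1) (b := e.1) (hrad P hP) with h1 | h1
        · rcases oD_subset_or_disjoint (a := Q.1) (b := e.1) (hrad Q hQ) with h2 | h2
          · exfalso
            have h3 := norm_lt_of_subset (norm_pos_iff.2 (hI1 P hP).1) h1
            have h4 := norm_lt_of_subset (norm_pos_iff.2 (hI1 Q hQ).1) h2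
            exact lt_irrefl _ (norm_sub_lt' h3 h4)
          · exact ⟨Q, hQ, h2⟩
        · exact ⟨P, hP, h1⟩
      obtain ⟨Z, hZ, hZd⟩ := hside
      have hZJ : ∀ p ∈ J, Disjoint (oD Z.1 ‖Z.2‖ : Set (P1 K)) (oD p.1 ‖p.2‖) := fun p hp =>
        hZd.mono_right (hJ1 p hp).2.2
      have hZnot : Z ∉ J := by
        intro hmem
        have h1 := hZJ Z hmem
        rw [disjoint_self] at h1
        have h2 := pt_mem_oD (a := Z.1) (norm_pos_iff.2 (hI1 Z hZ).1)
        rw [h1] at h2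
        exact h2
      have h2 := hA (insert Z J) ?_ ?_
      · rw [Finset.card_insert_of_notMem hZnot] at h2
        omega
      · intro p hp
        rcases Finset.mem_insert.1 hp with rfl | hp
        · exact hI1 p hZ
        · exact ⟨(hJ1 p hp).1, (hJ1 p hp).2.1, (hJ1 p hp).2.2.trans (heD e.1 (hS1 e.1 e.2).1)⟩
      · intro p hp q hq hpq
        rcases Finset.mem_insert.1 hp with hp' | hp' <;> rcases Finset.mem_insert.1 hq with hq' | hq'
        · exact absurd (hp'.trans hq'.symm) hpq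
        · rw [hp']; exact hZJ q hq'
        · rw [hq']; exact (hZJ p hp').symm
        · exact hJ2 p hp' q hq' hpq
    · rw [hδ, add_zero, mul_div_assoc', div_le_iff₀ (by positivity)]
      nlinarith
    · -- the mass
      set N : Set (P1 K) := ⋃₀ {V | IsOpen V ∧ ρ V = 0} with hNdef
      have hN0 : ρ N = 0 := h.null_sUnion _ (fun V hV => hV)
      have hcov : (oD a₀ ‖π₀‖ : Set (P1 K)) ⊆
          (ann P.1 ‖ϖ‖ ‖π₀‖ ∪ ⋃ e : {e // e ∈ S}, oD e.1 ‖ϖ‖) ∪
            (N ∪ {((zeta P.1 ‖ϖ‖ : Berk K) : P1 K)}) := by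
        rw [hD]
        intro x hx
        by_cases hx' : x ∈ (cD P.1 ‖ϖ‖ : Set (P1 K))
        · obtain ⟨y, rfl, hy⟩ := hx'
          by_cases hyz : y = zeta P.1 ‖ϖ‖
          · right; right; rw [hyz]; rfl
          · obtain ⟨e, he1, he2⟩ := y.exists_dir hq0 hy hyz
            by_cases hp : ρ (oD e ‖ϖ‖) = 0
            · right; left
              exact ⟨oD e ‖ϖ‖, ⟨isOpen_oD _ _, hp⟩, coe_mem_oD.2 he2⟩
            · obtain ⟨e', he', hsub⟩ := hS3 e he1 (pos_iff_ne_zero.2 hp)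
              left; right
              exact Set.mem_iUnion.2 ⟨⟨e', he'⟩, hsub (coe_mem_oD.2 he2)⟩
        · exact Or.inl (Or.inl ⟨hx, hx'⟩)
      have h1 := measureReal_mono (μ := ρ) hcov
      have h2 := (measureReal_union_le (μ := ρ) (ann P.1 ‖ϖ‖ ‖π₀‖ ∪ ⋃ e : {e // e ∈ S}, oD e.1 ‖ϖ‖)
            (N ∪ {((zeta P.1 ‖ϖ‖ : Berk K) : P1 K)}))
      have h3 := (measureReal_union_le (μ := ρ) (ann P.1 ‖ϖ‖ ‖π₀‖)
        (⋃ e : {e // e ∈ S}, oD e.1 ‖ϖ‖))
      have h4 : ρ.real (⋃ e : {e // e ∈ S}, oD e.1 ‖ϖ‖) ≤ ∑ e : {e // e ∈ S}, ρ.real (oD e.1 ‖ϖ‖) :=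
        measureReal_iUnion_fintype_le _
      have h5 : ρ.real (N ∪ {((zeta P.1 ‖ϖ‖ : Berk K) : P1 K)}) = 0 := by
        rw [Measure.real, measure_union_null hN0 (h.no_atom hG _)]
        rfl
      rw [h5] at h2
      linarith

theorem cover_disc (h : Setup R ρ) (hG : ¬ R.CaseG) {N : ℕ}
    (hN : ∀ I : Finset (K × K), (∀ p ∈ I, p.2 ≠ 0 ∧ 0 < ρ (oD p.1 ‖p.2‖)) →
      (∀ p ∈ I, ∀ q ∈ I, p ≠ q → Disjoint (oD p.1 ‖p.2‖ : Set (P1 K)) (oD q.1 ‖q.2‖)) →
      I.card ≤ N)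
    (a₀ π₀ : K) (h₀ : π₀ ≠ 0) {ε : ℝ} (hε : 0 < ε) :
    ∃ (m : ℕ) (a : Fin m → K) (r₁ r₂ : Fin m → ℝ),
      (∀ i, NullSides ρ (a i) (r₁ i) (r₂ i) ∧
        (oD (a i) (r₂ i) \ cD (a i) (r₁ i) : Set (P1 K)) ⊆ oD a₀ ‖π₀‖) ∧
      (∀ i j, i ≠ j → Disjoint (oD (a i) (r₂ i) \ cD (a i) (r₁ i) : Set (P1 K))
        (oD (a j) (r₂ j) \ cD (a j) (r₁ j))) ∧
      ρ.real (oD a₀ ‖π₀‖) - ε ≤ ∑ i, ρ.real (oD (a i) (r₂ i) \ cD (a i) (r₁ i)) := by
  obtain ⟨ι, inst, a, r₁, r₂, h1, h2, h3⟩ := cov_aux h hG N a₀ π₀ h₀ hε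
    (fun I hI1 hI2 => hN I (fun p hp => ⟨(hI1 p hp).1, (hI1 p hp).2.1⟩) hI2)
  let e := Fintype.equivFin ι
  refine ⟨Fintype.card ι, fun i => a (e.symm i), fun i => r₁ (e.symm i), fun i => r₂ (e.symm i),
    fun i => h1 _, fun i j hij => h2 _ _ (fun hh => hij (e.symm.injective hh)), ?_⟩
  refine h3.trans (le_of_eq ?_)
  exact (Equiv.sum_comp e.symm fun i => ρ.real (ann (a i) (r₁ i) (r₂ i))).symm

/-! ### subdivision of an annulus -/

theorem circle_null (h : Setup R ρ) (hG : ¬ R.CaseG) {a : K} {r₁ r₂ : ℝ}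
    (hU : NullSides ρ a r₁ r₂) {s : ℝ} (h1 : r₁ < s) (h2 : s < r₂) :
    ρ (cD a s \ oD a s) = 0 := by
  have hs : 0 < s := hU.pos.trans h1
  set N : Set (P1 K) := ⋃₀ {V | IsOpen V ∧ ρ V = 0} with hNdef
  have hN0 : ρ N = 0 := h.null_sUnion _ (fun V hV => hV)
  have hsub : (cD a s \ oD a s : Set (P1 K)) ⊆ N ∪ {((zeta a s : Berk K) : P1 K)} := by
    rintro _ ⟨⟨y, rfl, hy⟩, hy'⟩
    rw [coe_mem_oD, not_lt] at hy'
    by_cases hyz : y = zeta a s
    · right; rw [hyz]; rfl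
    · obtain ⟨e, he1, he2⟩ := y.exists_dir hs hy hyz
      left
      have he : ‖e - a‖ = s := by
        refine le_antisymm he1 (not_lt.1 fun hlt => ?_)
        have h3 := y.lin_le a e
        rw [norm_sub_rev] at h3
        exact absurd (hy'.trans h3) (not_le.2 (max_lt he2 hlt))
      refine ⟨oD e s, ⟨isOpen_oD _ _, ?_⟩, coe_mem_oD.2 he2⟩
      rw [← he]
      exact hU.null e (by rw [he]; exact h1) (by rw [he]; exact h2)
  exact measure_mono_null hsub (measure_union_null hN0 (h.no_atom hG _))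

/-- the distribution function. -/
noncomputable def cdfU (ρ : Measure (P1 K)) (U : Set (P1 K)) (a : K) (s : ℝ) : ℝ :=
  ρ.real (U ∩ cD a s)

theorem cdfU_mono [IsFiniteMeasure ρ] (U : Set (P1 K)) (a : K) : Monotone (cdfU ρ U a) :=
  fun _ _ hst => measureReal_mono (Set.inter_subset_inter_right _ (cD_mono hst))

theorem cdfU_continuous [IsFiniteMeasure ρ] {U : Set (P1 K)} (hUm : MeasurableSet U) (a : K)
    (hnull : ∀ s : ℝ, ρ (U ∩ (cD a s \ oD a s)) = 0) : Continuous (cdfU ρ U a) := by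
  rw [continuous_iff_continuousAt]
  intro s
  have hmono := cdfU_mono (ρ := ρ) U a
  -- sequences
  have hseq : Tendsto (fun n : ℕ => 1 / ((n : ℝ) + 1)) atTop (𝓝 0) :=
    tendsto_one_div_add_atTop_nhds_zero_nat
  have hanti : Antitone (fun n : ℕ => 1 / ((n : ℝ) + 1)) := fun m n hmn =>
    one_div_le_one_div_of_le (by positivity) (by
      have : (m : ℝ) ≤ n := by exact_mod_cast hmn
      linarith)
  have hL : Tendsto (fun n : ℕ => cdfU ρ U a (s - 1 / ((n : ℝ) + 1))) atTop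
      (𝓝 (cdfU ρ U a s)) := by
    have h1 : Tendsto (fun n : ℕ => ρ (U ∩ cD a (s - 1 / ((n : ℝ) + 1)))) atTop
        (𝓝 (ρ (⋃ n : ℕ, U ∩ cD a (s - 1 / ((n : ℝ) + 1))))) :=
      tendsto_measure_iUnion_atTop (fun m n hmn => Set.inter_subset_inter_right _
        (cD_mono (by have := hanti hmn; simp only at this; linarith)))
    have h2 : (⋃ n : ℕ, U ∩ cD a (s - 1 / ((n : ℝ) + 1))) = U ∩ oD a s := by
      ext x
      simp only [Set.mem_iUnion, Set.mem_inter_iff]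
      constructor
      · rintro ⟨n, hx, y, rfl, hy⟩
        refine ⟨hx, coe_mem_oD.2 ?_⟩
        have : 0 < 1 / ((n : ℝ) + 1) := by positivity
        linarith
      · rintro ⟨hx, y, rfl, hy⟩
        obtain ⟨n, hn⟩ := (hseq.eventually (gt_mem_nhds (sub_pos.2 hy))).exists
        exact ⟨n, hx, coe_mem_cD.2 (by linarith)⟩
    have h3 : ρ (U ∩ cD a s) = ρ (U ∩ oD a s) := by
      refine le_antisymm ?_ (measure_mono (Set.inter_subset_inter_right _ (oD_subset_cD a s)))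
      have h4 : U ∩ cD a s ⊆ (U ∩ oD a s) ∪ (U ∩ (cD a s \ oD a s)) := by
        rintro x ⟨hx1, hx2⟩
        by_cases hx3 : x ∈ (oD a s : Set (P1 K))
        · exact Or.inl ⟨hx1, hx3⟩
        · exact Or.inr ⟨hx1, hx2, hx3⟩
      refine (measure_mono h4).trans ((measure_union_le _ _).trans ?_)
      rw [hnull s, add_zero]
    rw [h2, ← h3] at h1
    exact (ENNReal.tendsto_toReal (measure_ne_top _ _)).comp h1
  have hR : Tendsto (fun n : ℕ => cdfU ρ U a (s + 1 / ((n : ℝ) + 1))) atTop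
      (𝓝 (cdfU ρ U a s)) := by
    have h1 : Tendsto (fun n : ℕ => ρ (U ∩ cD a (s + 1 / ((n : ℝ) + 1)))) atTop
        (𝓝 (ρ (⋂ n : ℕ, U ∩ cD a (s + 1 / ((n : ℝ) + 1))))) :=
      tendsto_measure_iInter_atTop
        (fun n => (hUm.inter (measurableSet_cD a _)).nullMeasurableSet)
        (fun m n hmn => Set.inter_subset_inter_right _
          (cD_mono (by have := hanti hmn; simp only at this; linarith))) ⟨0, measure_ne_top _ _⟩
    have h2 : (⋂ n : ℕ, U ∩ cD a (s + 1 / ((n : ℝ) + 1))) = U ∩ cD a s := by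
      ext x
      simp only [Set.mem_iInter, Set.mem_inter_iff]
      constructor
      · intro hx
        refine ⟨(hx 0).1, ?_⟩
        obtain ⟨y, rfl, -⟩ := (hx 0).2
        refine coe_mem_cD.2 (not_lt.1 fun hlt => ?_)
        obtain ⟨n, hn⟩ := (hseq.eventually (gt_mem_nhds (sub_pos.2 hlt))).exists
        have := coe_mem_cD.1 (hx n).2
        linarith
      · rintro ⟨hx, hx'⟩ n
        exact ⟨hx, cD_mono (by have : 0 < 1 / ((n : ℝ) + 1) := by positivity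
                               linarith) hx'⟩
    rw [h2] at h1
    exact (ENNReal.tendsto_toReal (measure_ne_top _ _)).comp h1
  rw [ContinuousAt, Metric.tendsto_nhds]
  intro ε hε
  obtain ⟨n, hn⟩ := ((Metric.tendsto_nhds.1 hL ε hε).and (Metric.tendsto_nhds.1 hR ε hε)).exists
  rw [Real.dist_eq, Real.dist_eq, abs_lt, abs_lt] at hn
  have hpos : 0 < 1 / ((n : ℝ) + 1) := by positivity
  have hmem : Set.Ioo (s - 1 / ((n : ℝ) + 1)) (s + 1 / ((n : ℝ) + 1)) ∈ 𝓝 s :=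
    Ioo_mem_nhds (by linarith) (by linarith)
  filter_upwards [hmem] with t ht
  rw [Real.dist_eq, abs_lt]
  have h1 := hmono ht.1.le
  have h2 := hmono ht.2.le
  constructor <;> linarith [hn.1.1, hn.1.2, hn.2.1, hn.2.2]

theorem subdivide (h : Setup R ρ) (hG : ¬ R.CaseG) {a : K} {r₁ r₂ : ℝ}
    (hU : NullSides ρ a r₁ r₂) {ε : ℝ} (hε : 0 < ε) :
    ∃ (m : ℕ) (t : Fin m → ℝ × ℝ),
      (∀ i, r₁ ≤ (t i).1 ∧ (t i).2 ≤ r₂ ∧ NullSides ρ a (t i).1 (t i).2 ∧
        0 < ρ (cD a (t i).1) ∧ 0 < ρ (oD a (t i).2)ᶜ ∧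
        ρ.real (oD a (t i).2 \ cD a (t i).1) ≤ ε) ∧
      (∀ i j, i ≠ j → Disjoint (oD a (t i).2 \ cD a (t i).1 : Set (P1 K))
        (oD a (t j).2 \ cD a (t j).1)) ∧
      ρ.real (oD a r₂ \ cD a r₁) - ε ≤ ∑ i, ρ.real (oD a (t i).2 \ cD a (t i).1) := by
  have := h.prob
  set U : Set (P1 K) := oD a r₂ \ cD a r₁ with hUdef
  have hUm : MeasurableSet U := (measurableSet_oD a r₂).diff (measurableSet_cD a r₁)
  set V : ℝ := ρ.real U with hV
  by_cases hVε : V ≤ ε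
  · refine ⟨0, fun i => i.elim0, fun i => i.elim0, fun i => i.elim0, ?_⟩
    simp; linarith
  rw [not_le] at hVε
  have hV0 : 0 < V := hε.trans hVε
  have hnull : ∀ s : ℝ, ρ (U ∩ (cD a s \ oD a s)) = 0 := by
    intro s
    by_cases h1 : r₁ < s
    · by_cases h2 : s < r₂
      · exact measure_mono_null Set.inter_subset_right (circle_null h hG hU h1 h2)
      · have : U ∩ (cD a s \ oD a s) = ∅ := by
          rw [Set.eq_empty_iff_forall_notMem]
          rintro x ⟨hx1, hx2⟩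
          exact hx2.2 (oD_mono (not_lt.1 h2) hx1.1)
        rw [this, measure_empty]
    · have : U ∩ (cD a s \ oD a s) = ∅ := by
        rw [Set.eq_empty_iff_forall_notMem]
        rintro x ⟨hx1, hx2⟩
        exact hx1.2 (cD_mono (not_lt.1 h1) hx2.1)
      rw [this, measure_empty]
  set F := cdfU ρ U a with hF
  have hcont : Continuous F := cdfU_continuous hUm a hnull
  have hmono : Monotone F := cdfU_mono U a
  have hF1 : F r₁ = 0 := by
    have : U ∩ cD a r₁ = ∅ := by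
      rw [Set.eq_empty_iff_forall_notMem]
      rintro x ⟨hx1, hx2⟩
      exact hx1.2 hx2
    rw [hF, cdfU, this, measureReal_empty]
  have hF2 : F r₂ = V := by
    have : U ∩ cD a r₂ = U :=
      Set.inter_eq_left.2 fun x hx => oD_subset_cD _ _ hx.1
    rw [hF, cdfU, this]
  obtain ⟨n, hn⟩ := exists_nat_gt (2 * V / ε)
  have hn2 : 2 * V < n * ε := by rwa [div_lt_iff₀ hε] at hn
  have hn3 : (2 : ℝ) < n := by
    by_contra hcon
    rw [not_lt] at hcon
    nlinarith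
  have hn3' : 2 < n := by exact_mod_cast hn3
  have hn0 : (0 : ℝ) < n := by linarith
  have hex : ∀ j : ℕ, ∃ s : ℝ, j ≤ n → s ∈ Set.Icc r₁ r₂ ∧ F s = j * V / n := by
    intro j
    by_cases hj : j ≤ n
    · have hj' : (j : ℝ) ≤ n := by exact_mod_cast hj
      have hmem : (j * V / n : ℝ) ∈ Set.Icc (F r₁) (F r₂) := by
        rw [hF1, hF2]
        refine ⟨by positivity, ?_⟩
        rw [div_le_iff₀ hn0]
        nlinarith
      obtain ⟨s, hs, hs'⟩ := intermediate_value_Icc hU.lt.le hcont.continuousOn hmem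
      exact ⟨s, fun _ => ⟨hs, hs'⟩⟩
    · exact ⟨0, fun h => absurd h hj⟩
  choose s hs using hex
  have hslt : ∀ i j : ℕ, i < j → j ≤ n → s i < s j := by
    intro i j hij hj
    by_contra hcon
    have h1 := hmono (not_lt.1 hcon)
    rw [(hs i (hij.le.trans hj)).2, (hs j hj).2] at h1
    have h2 : (i : ℝ) < j := by exact_mod_cast hij
    rw [div_le_div_iff_of_pos_right hn0] at h1
    nlinarith
  -- measure of the pieces
  have hpiece : ∀ i : ℕ, i + 2 < n →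
      ρ.real (oD a (s (i + 2)) \ cD a (s (i + 1))) = V / n := by
    intro i hi
    have e1 := hs (i + 1) (by omega)
    have e2 := hs (i + 2) (by omega)
    have hdiff : ρ.real ((U ∩ cD a (s (i + 2))) \ (U ∩ cD a (s (i + 1)))) = V / n := by
      rw [measureReal_sdiff (Set.inter_subset_inter_right _
        (cD_mono (hslt _ _ (by omega) (by omega)).le)) (hUm.inter (measurableSet_cD _ _))]
      change F (s (i + 2)) - F (s (i + 1)) = _
      rw [e1.2, e2.2]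
      push_cast
      ring
    have hr1 : r₁ < s (i + 2) := e1.1.1.trans_lt (hslt _ _ (by omega) (by omega))
    have hr2 : s (i + 2) < r₂ := (hslt _ (i + 3) (by omega) (by omega)).trans_le
      (hs (i + 3) (by omega)).1.2
    refine le_antisymm ?_ ?_
    · rw [← hdiff]
      refine measureReal_mono ?_
      rintro x ⟨hx1, hx2⟩
      have hxU : x ∈ U := ⟨oD_mono hr2.le hx1, fun h3 => hx2 (cD_mono e1.1.1 h3)⟩
      exact ⟨⟨hxU, oD_subset_cD _ _ hx1⟩, fun h3 => hx2 h3.2⟩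
    · rw [← hdiff]
      have h5 : (U ∩ cD a (s (i + 2))) \ (U ∩ cD a (s (i + 1))) ⊆
          (oD a (s (i + 2)) \ cD a (s (i + 1))) ∪ (cD a (s (i + 2)) \ oD a (s (i + 2))) := by
        rintro x ⟨⟨hx1, hx2⟩, hx3⟩
        by_cases hx4 : x ∈ (oD a (s (i + 2)) : Set (P1 K))
        · exact Or.inl ⟨hx4, fun h6 => hx3 ⟨hx1, h6⟩⟩
        · exact Or.inr ⟨hx2, hx4⟩
      refine (measureReal_mono h5).trans ((measureReal_union_le _ _).trans (le_of_eq ?_))
      rw [Measure.real, Measure.real, circle_null h hG hU hr1 hr2]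
      simp
  refine ⟨n - 2, fun i => (s (i + 1), s (i + 2)), ?_, ?_, ?_⟩
  · intro i
    have hi : (i : ℕ) + 2 < n := by have := i.2; omega
    have e1 := hs (i + 1) (by omega)
    have e2 := hs (i + 2) (by omega)
    refine ⟨e1.1.1, e2.1.2, ⟨hU.pos.trans_le e1.1.1, hslt _ _ (by omega) (by omega),
      fun c hc1 hc2 => hU.null c (e1.1.1.trans_lt hc1) (hc2.trans_le e2.1.2)⟩, ?_, ?_, ?_⟩
    · have h1 : 0 < ρ.real (U ∩ cD a (s (i + 1))) := by
        change 0 < F (s (i + 1))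
        rw [e1.2]; push_cast; positivity
      have h2 : 0 < ρ.real (cD a (s (i + 1))) :=
        h1.trans_le (measureReal_mono Set.inter_subset_right)
      exact (ENNReal.toReal_pos_iff.1 h2).1
    · have h1 : 0 < ρ.real (U \ (U ∩ cD a (s (i + 2)))) := by
        rw [measureReal_sdiff Set.inter_subset_left (hUm.inter (measurableSet_cD _ _))]
        change 0 < V - F (s (i + 2))
        rw [e2.2, sub_pos, div_lt_iff₀ hn0]
        have : ((i : ℕ) + 2 : ℝ) < n := by exact_mod_cast hi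
        push_cast
        nlinarith
      have h2 : 0 < ρ.real (oD a (s (i + 2)))ᶜ := by
        refine h1.trans_le (measureReal_mono ?_)
        rintro x ⟨hx1, hx2⟩ hx3
        exact hx2 ⟨hx1, oD_subset_cD _ _ hx3⟩
      exact (ENNReal.toReal_pos_iff.1 h2).1
    · change ρ.real (oD a (s (i + 2)) \ cD a (s (i + 1))) ≤ ε
      rw [hpiece i hi, div_le_iff₀ hn0]
      nlinarith
  · have key : ∀ i j : Fin (n - 2), (i : ℕ) < j →
        Disjoint (oD a (s (i + 2)) \ cD a (s (i + 1)) : Set (P1 K))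
        (oD a (s (j + 2)) \ cD a (s (j + 1))) := by
      intro i j hij
      have hj : (j : ℕ) + 2 < n := by have := j.2; omega
      refine Set.disjoint_left.2 fun x hx hx' => hx'.2 ?_
      have h1 : s (i + 2) ≤ s (j + 1) := by
        rcases Nat.lt_or_ge ((i : ℕ) + 2) (j + 1) with h2 | h2
        · exact (hslt _ _ h2 (by omega)).le
        · have : (i : ℕ) + 2 = j + 1 := by omega
          rw [this]
      exact cD_mono h1 (oD_subset_cD _ _ hx.1)
    intro i j hij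
    rcases Nat.lt_or_ge (i : ℕ) j with h1 | h1
    · exact key i j h1
    · have : (i : ℕ) ≠ j := fun h2 => hij (Fin.ext h2)
      exact (key j i (by omega)).symm
  · have h1 : ∀ i : Fin (n - 2), ρ.real (oD a (s (i + 2)) \ cD a (s (i + 1))) = V / n :=
      fun i => hpiece i (by have := i.2; omega)
    simp only [h1]
    rw [Finset.sum_const, Finset.card_univ, Fintype.card_fin, nsmul_eq_mul,
      Nat.cast_sub (by omega)]
    push_cast
    have h2 : (n - 2 : ℝ) * (V / n) = V - 2 * V / n := by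
      field_simp
    rw [h2]
    have h3 : 2 * V / n ≤ ε := by rw [div_le_iff₀ hn0]; nlinarith
    linarith

/-- **Case S.** -/
theorem tileFam_of_few (h : Setup R ρ) (hG : ¬ R.CaseG) {N : ℕ}
    (hN : ∀ I : Finset (K × K), (∀ p ∈ I, p.2 ≠ 0 ∧ 0 < ρ (oD p.1 ‖p.2‖)) →
      (∀ p ∈ I, ∀ q ∈ I, p ≠ q → Disjoint (oD p.1 ‖p.2‖ : Set (P1 K)) (oD q.1 ‖q.2‖)) →
      I.card ≤ N)
    {ε : ℝ} (hε : 0 < ε) : TileFam R ρ ε := by
  have := h.prob
  obtain ⟨w, hw⟩ := NormedField.exists_one_lt_norm K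
  have hw0 : w ≠ 0 := by
    rintro rfl
    rw [norm_zero] at hw
    linarith
  -- a big disc
  have hbig : ∃ n : ℕ, 1 - ε / 4 ≤ ρ.real (oD 0 ‖w ^ n‖) := by
    have h1 : Tendsto (fun n : ℕ => ρ (oD 0 ‖w ^ n‖)) atTop
        (𝓝 (ρ (⋃ n : ℕ, oD 0 ‖w ^ n‖))) :=
      tendsto_measure_iUnion_atTop (fun m n hmn => oD_mono (by
        rw [norm_pow, norm_pow]
        exact pow_le_pow_right₀ hw.le hmn))
    have h2 : ρ (⋃ n : ℕ, oD (0 : K) ‖w ^ n‖) = 1 := by
      refine le_antisymm prob_le_one ?_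
      have h3 : (Set.univ : Set (P1 K)) ⊆ (⋃ n : ℕ, oD (0 : K) ‖w ^ n‖) ∪ {OnePoint.infty} := by
        intro x _
        induction x using OnePoint.rec with
        | infty => exact Or.inr rfl
        | coe x =>
          left
          obtain ⟨n, hn⟩ := pow_unbounded_of_one_lt (x (X - C 0)) hw
          exact Set.mem_iUnion.2 ⟨n, coe_mem_oD.2 (by rw [norm_pow]; exact hn)⟩
      calc (1 : ENNReal) = ρ Set.univ := measure_univ.symm
        _ ≤ _ := measure_mono h3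
        _ ≤ _ := measure_union_le _ _
        _ = _ := by rw [h.no_atom hG, add_zero]
    rw [h2] at h1
    have h4 := (ENNReal.tendsto_toReal ENNReal.one_ne_top).comp h1
    rw [ENNReal.toReal_one] at h4
    obtain ⟨n, hn⟩ := (h4.eventually (lt_mem_nhds (show 1 - ε / 4 < 1 by linarith))).exists
    exact ⟨n, hn.le⟩
  obtain ⟨n, hn⟩ := hbig
  obtain ⟨m, a, r₁, r₂, c1, c2, c3⟩ := cover_disc h hG hN 0 (w ^ n) (pow_ne_zero _ hw0)
    (show 0 < ε / 4 by linarith)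
  set ε' := ε / (4 * ((m : ℝ) + 1)) with hε'
  have hm0 : (0 : ℝ) < (m : ℝ) + 1 := by positivity
  have hε'0 : 0 < ε' := by positivity
  have hε'le : ε' ≤ ε := by
    rw [hε', div_le_iff₀ (by positivity)]
    nlinarith [(Nat.cast_nonneg m : (0 : ℝ) ≤ m)]
  have hsd := fun i => subdivide h hG (c1 i).1 hε'0
  choose M t d1 d2 d3 using hsd
  let ι := Σ i : Fin m, Fin (M i)
  let e := Fintype.equivFin ι
  let W : ι → Set (P1 K) := fun z =>
    oD (a z.1) (t z.1 z.2).2 \ cD (a z.1) (t z.1 z.2).1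
  have hWsub : ∀ z : ι, W z ⊆ oD (a z.1) (r₂ z.1) \ cD (a z.1) (r₁ z.1) := fun z x hx =>
    ⟨oD_mono (d1 z.1 z.2).2.1 hx.1, fun h1 => hx.2 (cD_mono (d1 z.1 z.2).1 h1)⟩
  have hWdis : ∀ z z' : ι, z ≠ z' → Disjoint (W z) (W z') := by
    rintro ⟨i, j⟩ ⟨i', j'⟩ hne
    by_cases hii : i = i'
    · subst hii
      exact d2 i j j' (fun hjj => hne (by rw [hjj]))
    · exact (c2 i i' hii).mono (hWsub ⟨i, j⟩) (hWsub ⟨i', j'⟩)
  refine ⟨Fintype.card ι, fun i => W (e.symm i), fun i => ρ.real (W (e.symm i)),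
    fun i j hij => hWdis _ _ (fun hh => hij (e.symm.injective hh)), fun i => ?_, ?_⟩
  · obtain ⟨k1, k2, k3, k4, k5, k6⟩ := d1 (e.symm i).1 (e.symm i).2
    exact ⟨(measurableSet_oD _ _).diff (measurableSet_cD _ _), discLike_annulus _ k3.pos k3.lt,
      k6.trans hε'le, h.hasFix_annulus hG k3 k4 k5, le_rfl⟩
  · have h1 : ∑ i, ρ.real (W (e.symm i)) = ∑ z : ι, ρ.real (W z) :=
      Equiv.sum_comp e.symm fun z => ρ.real (W z)
    rw [h1, Fintype.sum_sigma]
    have h2 : ∑ i, (ρ.real (oD (a i) (r₂ i) \ cD (a i) (r₁ i)) - ε') ≤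
        ∑ i, ∑ j, ρ.real (W ⟨i, j⟩) := Finset.sum_le_sum fun i _ => d3 i
    rw [Finset.sum_sub_distrib, Finset.sum_const, Finset.card_univ, Fintype.card_fin,
      nsmul_eq_mul] at h2
    have h3 : (m : ℝ) * ε' ≤ ε / 4 := by
      rw [hε', mul_div_assoc', div_le_iff₀ (by positivity)]
      nlinarith
    linarith

end Pool.Agent.Helper43.Berk
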